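import Pool.Agent.N375.AV.Ex
import Pool.Agent.J6H45.WF.Hodge

/-!
# Hodge generic fibres around the values of compositions of additive functions, at algebraic points

Let `β_1, …, β_m`, `m ≥ 2`, be rational numbers in `(0, 1)`. The hypergeometric variation of Hodge structure with the exponents
`β_j`, `1 - β_j` (rank `2m`, weight `2m - 1`, all Hodge numbers `1`, for `m = 2`, `β = (1/5, 2/5)` the third cohomology of the
mirror quintics) has generic Mumford-Tate group `GSp(2m)`; its special points are points of the Hodge locus, and for `m ≥ 2`
they are atypical.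

Let `F = f_1 ∘ ⋯ ∘ f_r` be a composition of functions dominated by the largest prime factor: for example additive functions
`f` with `f (p^j) ≤ C p^j` at the prime powers, with different values at different large primes (such as the sum of the
prime factors), the largest prime factor itself, and Kempner's function. Let `G` be a function with steps bounded below by
a positive constant and growth at most `v ^ d`. For all `g`, `B` there is `c > 0` such that for `θ, κ ≥ 0` with
`d (1 - c + θ) + κ < 1` there are `b > 0` and `K` such that for all rational structures of the variation, for all `a ≤ N` but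
`K N exp (- b (log N) ^ (1 / (r + 1)))`, with `v = F(a)`, for ALL integers `n ≥ 1` with `|n - G(v)| ≤ v ^ κ`, ALL integers `t` in
the window of radius `n ^ θ` around `n`, or around `-n`, and ALL algebraic numbers `α` of degree at most `g` and height at most
`B` the fibre at the point `z = 1 / (t + α)` is Hodge generic, and so `z` is not in the Hodge locus.

The values of `F` are taken with very large multiplicities and `F(a)` is in general much smaller than `a` (for the largest
prime factor `F(a) ≤ N ^ c` has a positive density for every `c > 0`), so this does not follow from the number of the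
exceptional integers; the functions `F` are not multiplicative (compare the starting theorem `MultiplicativeValues`).

Proof. (1) The starting theorem `HodgeAlgebraicWindows`, with its few exceptions in arithmetic progressions of algebraic
points, gives windows of integers with few exceptions for all `α` together (`Pool.Agent.J6H45.WF.windows_alg`) and so a power
saving for the integers `n` some of whose fibres are exceptional (`Pool.Agent.J6H45.WF.few`), uniformly in the rational
structures. (2) The values of `F` avoid sets with a power saving (`Pool.Agent.N375.AV.windows_unif`, helper375).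
-/

set_option autoImplicit false

namespace Pool.Agent.Results.MP_eeb1a4_ag.AdditiveFibres

open Pool.Agent.N733.TG (Expanding expanding_pow)
open Pool.Agent.N375.AV (PD comp pd_additive pd_largest pd_kempner)
open Pool.Agent.Results.MP_eeb1a4_ag.HodgeAlgebraicWindows (RationalStructure)
open Pool.Agent.J6H45.WF.H (GoodFibres)

/-- **Hodge generic fibres around the values of compositions of additive functions.** Let `m ≥ 2`, `β_j` rational in
`(0, 1)`. For all `g`, `B` there is `c > 0` such that for all lists `fs` of functions dominated by the largest prime factor,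
all functions `G` with steps bounded below and growth at most `v ^ d`, all `θ, κ ≥ 0` with `d (1 - c + θ) + κ < 1` there are
`b > 0` and `K` such that for all rational structures `(C, A)`, for all `a ≤ N` but `K N exp (- b (log N) ^ (1 / (r + 1)))`, `r`
the length of the list, with `v = F(a)`, for all `n ≥ 1` with `|n - G(v)| ≤ v ^ κ` all the fibres at the points
`z = 1 / (t + α)`, `t` in the windows of radius `n ^ θ` around `± n`, `α` of degree at most `g` and height at most `B`, are Hodge
generic. Additive functions with the given properties, the largest prime factor and Kempner's function are examples. -/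
theorem result :
    (∀ m : ℕ, 2 ≤ m → ∀ β : Fin m → ℚ, (∀ j, 0 < β j ∧ β j < 1) → ∀ g B : ℕ, ∃ c : ℝ, 0 < c ∧
      ∀ fs : List (ℕ → ℕ), (∀ f ∈ fs, PD f) → ∀ (G : ℕ → ℝ) (d : ℝ), Expanding G d → ∀ θ κ : ℝ, 0 ≤ θ → 0 ≤ κ →
      d * (1 - c + θ) + κ < 1 → ∃ b K : ℝ, 0 < b ∧
      ∀ (C : Matrix (Fin (2 * m)) (Fin (2 * m)) ℂ) (A : Matrix (Fin (2 * m)) (Fin (2 * m)) ℚ), RationalStructure C A →
      ∀ N : ℕ, 1 ≤ N → ({a : ℕ | 1 ≤ a ∧ a ≤ N ∧ ¬ ∀ n : ℕ, 1 ≤ n →
        |(n : ℝ) - G (comp fs a)| ≤ (comp fs a : ℝ) ^ κ → GoodFibres β C A g B θ n}.ncard : ℝ) ≤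
          K * N * Real.exp (-(b * Real.log N ^ ((1 : ℝ) / (fs.length + 1))))) ∧
    ((∀ f : ℕ → ℕ, (∀ a b : ℕ, Nat.Coprime a b → f (a * b) = f a + f b) →
        (∃ C : ℕ, ∀ p j : ℕ, p.Prime → 1 ≤ j → f (p ^ j) ≤ C * p ^ j) →
        (∃ P : ℕ, ∀ p p' : ℕ, p.Prime → p'.Prime → P ≤ p → P ≤ p' → f p = f p' → p = p') → PD f) ∧
      PD (fun n => n.primeFactors.sup id) ∧ PD (fun n => sInf {k : ℕ | n ∣ k.factorial})) ∧
    (∀ α d : ℝ, 0 < α → 1 ≤ d → Expanding (fun v : ℕ => α * (v : ℝ) ^ d) d) := by
  refine ⟨fun m hm β hβ g B => ?_, ⟨fun f h1 h2 h3 => pd_additive h1 h2 h3, pd_largest, pd_kempner⟩,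
    fun α d hα hd => expanding_pow hα hd⟩
  obtain ⟨c, hc, hc1, H⟩ := Pool.Agent.J6H45.WF.H.sparse_H hm β hβ g B
  refine ⟨c, hc, fun fs hfs G d hG θ κ hθ hκ h1 => ?_⟩
  obtain ⟨K, hK⟩ := H θ hθ
  obtain ⟨b, K', hb, hA⟩ := Pool.Agent.J6H45.WF.add fs hfs hG (by linarith) hκ h1 K
  exact ⟨b, K', hb, fun C A hCA N hN => hA (GoodFibres β C A g B θ) (hK C A hCA) N hN⟩

end Pool.Agent.Results.MP_eeb1a4_ag.AdditiveFibres
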