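import Pool.Agent.J6H45.WF.Hodge

/-!
# Hodge generic fibres around the orbits of Euler's function, at algebraic points

Let `β_1, …, β_m`, `m ≥ 2`, be rational numbers in `(0, 1)`. The hypergeometric variation of Hodge structure with the exponents
`β_j`, `1 - β_j` (rank `2m`, weight `2m - 1`, all Hodge numbers `1`, for `m = 2`, `β = (1/5, 2/5)` the third cohomology of the
mirror quintics) has generic Mumford-Tate group `GSp(2m)`; its special points are points of the Hodge locus, and for `m ≥ 2`
they are atypical.

Let `φ_l` be the `l`-th iterate of Euler's function, `φ_0(a) = a`, and let `f` be a positive multiplicative function of at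
most polynomial growth such that `f p ≤ M p` for the large primes `p`, with different values at different large primes;
for example the identity, Euler's function or the sum of the divisors. Let `G` be a function with steps bounded below by
a positive constant and growth at most `v ^ d`, for example `G v = α v ^ d`. For all `g`, `B` there is `c > 0` such that for
`θ, κ ≥ 0` with `d (1 - c + θ) + κ < 1` the following holds for all `L` and `ε > 0`, all large `N` and all rational structures
of the variation (how large `N` has to be does not depend on them): for all `a ≤ N` but `ε N`, for all `l ≤ L`, with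
`v = f(φ_l(a))`, for ALL integers `n ≥ 1` with `|n - G(v)| ≤ v ^ κ`, ALL integers `t` in the window of radius `n ^ θ` around `n`,
or around `-n`, and ALL algebraic numbers `α` of degree at most `g` and height at most `B` the fibre at the point
`z = 1 / (t + α)` is Hodge generic, and so `z` is not in the Hodge locus.

The starting theorem `MultiplicativeValues` treats the points `z = 1 / n`, `n` an integer close to `G(f(a))`. The iterates of
Euler's function are not multiplicative, their values form a thin set and are taken with very large multiplicities.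

Proof. (1) The starting theorem `HodgeAlgebraicWindows`, with its few exceptions in arithmetic progressions of algebraic
points, gives windows of integers with few exceptions for all `α` together (`Pool.Agent.J6H45.WF.windows_alg`) and so a power
saving for the integers `n` some of whose fibres are exceptional (`Pool.Agent.J6H45.WF.few`), uniformly in the rational
structures. (2) The orbits of Euler's function avoid sets with a power saving (`Pool.Agent.N760.IT.densW`, helper760).
-/

set_option autoImplicit false

namespace Pool.Agent.Results.MP_eeb1a4_ag.OrbitFibres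

open Pool.Agent.N733.TG (LM Expanding lm_totient lm_sigma expanding_pow)
open Pool.Agent.N760.IT (orb lm_id)
open Pool.Agent.Results.MP_eeb1a4_ag.HodgeAlgebraicWindows (RationalStructure)
open Pool.Agent.J6H45.WF.H (GoodFibres)

/-- **Hodge generic fibres around the orbits of Euler's function.** Let `m ≥ 2`, `β_j` rational in `(0, 1)`. For all `g`, `B`
there is `c > 0` such that for all multiplicative functions `f` as above, all functions `G` with steps bounded below and
growth at most `v ^ d`, all `θ, κ ≥ 0` with `d (1 - c + θ) + κ < 1`, all `L` and `ε > 0`, all large `N` and all rational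
structures `(C, A)`: for all `a ≤ N` but `ε N`, for all `l ≤ L`, with `v = f(φ_l(a))` (`orb f l a`), for all `n ≥ 1` with
`|n - G(v)| ≤ v ^ κ` all the fibres at the points `z = 1 / (t + α)`, `t` in the windows of radius `n ^ θ` around `± n`, `α` of degree
at most `g` and height at most `B`, are Hodge generic. The identity, Euler's function and the sum of the divisors are
examples for `f`, and `α v ^ d`, `α > 0`, `d ≥ 1`, are examples for `G`. -/
theorem result :
    (∀ m : ℕ, 2 ≤ m → ∀ β : Fin m → ℚ, (∀ j, 0 < β j ∧ β j < 1) → ∀ g B : ℕ, ∃ c : ℝ, 0 < c ∧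
      ∀ f : ℕ → ℕ, LM f → ∀ (G : ℕ → ℝ) (d : ℝ), Expanding G d → ∀ θ κ : ℝ, 0 ≤ θ → 0 ≤ κ →
      d * (1 - c + θ) + κ < 1 → ∀ (L : ℕ) (ε : ℝ), 0 < ε → ∃ N₀ : ℕ, ∀ N : ℕ, N₀ ≤ N →
      ∀ (C : Matrix (Fin (2 * m)) (Fin (2 * m)) ℂ) (A : Matrix (Fin (2 * m)) (Fin (2 * m)) ℚ), RationalStructure C A →
        ({a : ℕ | 1 ≤ a ∧ a ≤ N ∧ ¬ ∀ l ≤ L, ∀ n : ℕ, 1 ≤ n →
          |(n : ℝ) - G (orb f l a)| ≤ (orb f l a : ℝ) ^ κ → GoodFibres β C A g B θ n}.ncard : ℝ) ≤ ε * N) ∧
    (LM (fun m => m) ∧ LM Nat.totient ∧ LM (fun m => ∑ d ∈ m.divisors, d)) ∧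
    (∀ α d : ℝ, 0 < α → 1 ≤ d → Expanding (fun v : ℕ => α * (v : ℝ) ^ d) d) := by
  refine ⟨fun m hm β hβ g B => ?_, ⟨lm_id, lm_totient, lm_sigma⟩, fun α d hα hd => expanding_pow hα hd⟩
  obtain ⟨c, hc, hc1, H⟩ := Pool.Agent.J6H45.WF.H.sparse_H hm β hβ g B
  refine ⟨c, hc, fun f hf G d hG θ κ hθ hκ h1 L ε hε => ?_⟩
  obtain ⟨K, hK⟩ := H θ hθ
  obtain ⟨N₀, hN₀⟩ := Pool.Agent.J6H45.WF.orbit hf hG (by linarith) hκ h1 K L ε hε
  exact ⟨N₀, fun N hN C A hCA => hN₀ N hN (GoodFibres β C A g B θ) (hK C A hCA)⟩

end Pool.Agent.Results.MP_eeb1a4_ag.OrbitFibres
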