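import Pool.Agent.J6H45.WF.Hodge
import Pool.Agent.J6H45.WF.Best

/-!
# Hodge generic fibres at the approximation vectors of systems of linear forms, at algebraic points

Let `β_1, …, β_m`, `m ≥ 2`, be rational numbers in `(0, 1)`. The hypergeometric variation of Hodge structure with the exponents
`β_j`, `1 - β_j` (rank `2m`, weight `2m - 1`, all Hodge numbers `1`, for `m = 2`, `β = (1/5, 2/5)` the third cohomology of the
mirror quintics) has generic Mumford-Tate group `GSp(2m)`; its special points are points of the Hodge locus, and for `m ≥ 2`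
they are atypical.

For all `g`, `B` and `k ≥ 1` there is `η > 0` such that for all `r`, `γ ∈ ℝ^r`, `τ > 0` and all rational structures of the
variation the following holds for all real matrices `α` with `k` rows and `r` columns outside a set of Hausdorff dimension at
most `(k - 1) r + (r + k - η) / (1 + τ)` and all `c`: for all large integer vectors `v` with `‖(v α)_j - γ_j‖ ≤ c |v| ^ (-τ)` for
all `j`, where `‖x‖` is the distance of `x` to the nearest integer, for ALL integers `a_i ≠ 0` and `b_i` of absolute value at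
most `|v| ^ η`, and ALL algebraic numbers `ξ` of degree at most `g` and height at most `B`, the fibres at the points
`z = 1 / (± (a_i v_i + b_i) + ξ)` are Hodge generic, and so these points are not in the Hodge locus.

For `τ = k / r`, `γ = 0` and `c = 1` these are all the best approximation vectors `v` of the system `α` of `r` linear forms in
`k` variables (for `k = r = 1` the denominators of the convergents of a real number), and the bound for the dimension is less
than `k r`. They are a sparse sequence, and so this does not follow from the number of the exceptional integers alone.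

Proof. (1) The starting theorem `HodgeAlgebraicWindows`, with its few exceptions in arithmetic progressions of algebraic
points, gives windows of integers with few exceptions for all `ξ` together (`Pool.Agent.J6H45.WF.windows_alg`) and so a power
saving for the integers some of whose fibres are exceptional (`Pool.Agent.J6H45.WF.few`), uniformly in the rational
structures. (2) `Pool.Agent.N665.DA.approx_near`.
-/

set_option autoImplicit false

namespace Pool.Agent.Results.MP_eeb1a4_ag.SimultaneousApproximationFibres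

open Pool.Agent.N671.DA (Near)
open Pool.Agent.J6H45.WF (AlgNum)
open Pool.Agent.Results.MP_eeb1a4_ag.HodgeAlgebraicWindows (RationalStructure HodgeGeneric)

/-- **Hodge generic fibres at approximation vectors.** Let `m ≥ 2`, `β_j` rational in `(0, 1)`. For all `g`, `B` and `k ≥ 1`
there is `η > 0` such that for all rational structures `(C, A)`, all `r`, `γ ∈ ℝ^r` and `τ > 0`, for all real matrices `α` with `k`
rows and `r` columns outside a set of Hausdorff dimension at most `(k - 1) r + (r + k - η) / (1 + τ)` and all `c`: for all large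
integer vectors `v` with `‖(v α)_j - γ_j‖ ≤ c |v| ^ (-τ)` for all `j` and for all integers `a_i ≠ 0`, `b_i` with
`|a_i|, |b_i| ≤ |v| ^ η` the integers `t = a_i v_i + b_i` are not `0`, and for all `ξ` of degree at most `g` and height at most
`B` the fibres at `z = 1 / (t + ξ)` and `z = 1 / (- t + ξ)` are Hodge generic. -/
theorem result {m : ℕ} (hm : 2 ≤ m) (β : Fin m → ℚ) (hβ : ∀ j, 0 < β j ∧ β j < 1) (g B k : ℕ) (hk : 1 ≤ k) :
    ∃ η : ℝ, 0 < η ∧
      ∀ (C : Matrix (Fin (2 * m)) (Fin (2 * m)) ℂ) (A : Matrix (Fin (2 * m)) (Fin (2 * m)) ℚ), RationalStructure C A →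
      ∀ (r : ℕ) (γ : Fin r → ℝ) (τ : ℝ), 0 < τ →
      ∃ S : Set (Fin k × Fin r → ℝ), dimH S ≤ ENNReal.ofReal (((k : ℝ) - 1) * r + (r + ((k : ℝ) - η)) / (1 + τ)) ∧
      ∀ α, α ∉ S → ∀ c : ℝ, ∃ Q : ℝ, ∀ v : Fin k → ℤ, Q ≤ ‖v‖ → Near α γ v (c * ‖v‖ ^ (-τ)) →
        ∀ a b : Fin k → ℤ, (∀ i, a i ≠ 0 ∧ |(a i : ℝ)| ≤ ‖v‖ ^ η ∧ |(b i : ℝ)| ≤ ‖v‖ ^ η) →
          ∀ i, a i * v i + b i ≠ 0 ∧ ∀ ξ ∈ AlgNum g B,
            HodgeGeneric β (((a i * v i + b i : ℤ) : ℂ) + ξ) C A ∧
            HodgeGeneric β (((-(a i * v i + b i) : ℤ) : ℂ) + ξ) C A := by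
  obtain ⟨c, hc, hc1, H⟩ := Pool.Agent.J6H45.WF.H.sparse_H hm β hβ g B
  obtain ⟨η, hη, hbest⟩ := Pool.Agent.J6H45.WF.best hk hc hc1
  obtain ⟨K, hK⟩ := H 0 le_rfl
  refine ⟨η, hη, fun C A hCA r γ τ hτ => ?_⟩
  have h0 := hK C A hCA
  rw [add_zero] at h0
  obtain ⟨S, hS, hS2⟩ := hbest K _ h0 r γ τ hτ
  refine ⟨S, hS, fun α hα c₁ => ?_⟩
  obtain ⟨Q, hQ⟩ := hS2 α hα c₁
  refine ⟨Q, fun v hv h1 a b hab i => ?_⟩
  obtain ⟨h2, h3⟩ := hQ v hv h1 a b hab i
  set t : ℤ := a i * v i + b i with ht
  have hnat : ((t.natAbs : ℕ) : ℝ) = |(t : ℝ)| := by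
    rw [Nat.cast_natAbs, Int.cast_abs]
  have key : ∀ s : ℤ, (s = t ∨ s = -t) → ∀ ξ ∈ AlgNum g B, HodgeGeneric β ((s : ℂ) + ξ) C A := by
    intro s hs ξ hξ
    have h4 : ∀ ε : ℤ, (ε = 1 ∨ ε = -1) → ((ε * s : ℤ) : ℝ) = ((t.natAbs : ℕ) : ℝ) → HodgeGeneric β ((s : ℂ) + ξ) C A := by
      intro ε hε he
      refine h3 ε hε s ?_ ξ hξ
      rw [he, sub_self, abs_zero]
      positivity
    rcases hs with rfl | rfl
    · rcases le_total 0 t with h5 | h5
      · refine h4 1 (Or.inl rfl) ?_
        rw [hnat, one_mul, abs_of_nonneg (by exact_mod_cast h5)]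
      · refine h4 (-1) (Or.inr rfl) ?_
        rw [hnat, abs_of_nonpos (by exact_mod_cast h5)]
        push_cast
        ring
    · rcases le_total 0 t with h5 | h5
      · refine h4 (-1) (Or.inr rfl) ?_
        rw [hnat, abs_of_nonneg (by exact_mod_cast h5)]
        push_cast
        ring
      · refine h4 1 (Or.inl rfl) ?_
        rw [hnat, abs_of_nonpos (by exact_mod_cast h5)]
        push_cast
        ring
  exact ⟨h2, fun ξ hξ => ⟨key t (Or.inl rfl) ξ hξ, key (-t) (Or.inr rfl) ξ hξ⟩⟩

end Pool.Agent.Results.MP_eeb1a4_ag.SimultaneousApproximationFibres
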