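import Pool.Agent.J6H45.WF.Hodge

/-!
# Hodge generic fibres near the terms of sequences with a real parameter, at algebraic points

Let `β_1, …, β_m`, `m ≥ 2`, be rational numbers in `(0, 1)`. The hypergeometric variation of Hodge structure with the exponents
`β_j`, `1 - β_j` (rank `2m`, weight `2m - 1`, all Hodge numbers `1`, for `m = 2`, `β = (1/5, 2/5)` the third cohomology of the
mirror quintics) has generic Mumford-Tate group `GSp(2m)`; its special points are points of the Hodge locus, and for `m ≥ 2`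
they are atypical.

Let `f_l`, `l = 0, 1, 2, …`, be positive functions on `(x₀, ∞)`, `x₀ ≥ 0`, such that `f_l(x) / x` is nondecreasing and such
that the sequence `f_l(x)` has exponent of convergence at most `σ` for each `x > x₀`: for instance `f_l(x) = v_l x`
(dilatations; `σ` the exponent of convergence of `v_l > 0`), `f_l(x) = x ^ (v_l)` for exponents `v_l ≥ 1` (`σ = 0`), or the
orbits `f_l(x) = h (h (⋯ h (x)))` of any map `h` with `h(x) > x` and `h(x) / x` nondecreasing (`σ = 0`). For all `g`, `B` there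
is `c > 0` such that for all `η ≥ 0`, `θ < 1` and all rational structures of the variation, for all `x > x₀` outside a set of
Hausdorff dimension at most `(1 - c + η + σ) / (1 - θ)` and each `c'`, for all but finitely many `l`, ALL the integers `n ≥ 1`
with `|n - f_l(x)| ≤ c' f_l(x) ^ θ`, ALL integers `t` in the window of radius `n ^ η` around `n`, or around `-n`, and ALL
algebraic numbers `α` of degree at most `g` and height at most `B` the fibre at the point `z = 1 / (t + α)` is Hodge generic,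
and so `z` is not in the Hodge locus. For `σ = 0` (lacunary sequences, powers, orbits) and small `η`, `θ` the dimension is
smaller than `1`.

Proof. The starting theorem `HodgeAlgebraicWindows`, `Pool.Agent.J6H45.WF.windows_alg`, `Pool.Agent.J6H45.WF.few` and
`Pool.Agent.R482.ST.windows` (helper482).
-/

set_option autoImplicit false

namespace Pool.Agent.Results.MP_eeb1a4_ag.StarshapedFibres

open Pool.Agent.Results.MP_eeb1a4_ag.HodgeAlgebraicWindows (RationalStructure)
open Pool.Agent.J6H45.WF.H (GoodFibres)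

/-- the functions `f l` are positive on `(a, ∞)`, `a ≥ 0`, and `f l x / x` is nondecreasing there -/
def Starshaped (a : ℝ) (f : ℕ → ℝ → ℝ) : Prop :=
  0 ≤ a ∧ ∀ l : ℕ, ∀ x y : ℝ, a < x → x ≤ y → 0 < f l x ∧ f l x / x ≤ f l y / y

/-- for each `x > a` the exponent of convergence of the sequence `f l x` is at most `σ` -/
def ExpLe (a : ℝ) (f : ℕ → ℝ → ℝ) (σ : ℝ) : Prop :=
  ∀ x : ℝ, a < x → ∀ t : ℝ, σ < t → Summable (fun l : ℕ => (f l x) ^ (-t))

/-- Let `m ≥ 2`, `β_j` rational in `(0, 1)`. For all `g`, `B` there is `c > 0` such that for all rational structures `(C, A)`,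
all starshaped functions `f_l` on `(x₀, ∞)` of exponent `σ`, all `η ≥ 0` and `θ < 1` there is a set `E` of Hausdorff dimension at
most `(1 - c + η + σ) / (1 - θ)` such that for all `x > x₀` outside `E` and all `c'`, for all large `l`, for all `n ≥ 1` with
`|n - f_l(x)| ≤ c' f_l(x) ^ θ` all the fibres at the points `z = 1 / (t + α)`, `t` in the windows of radius `n ^ η` around `± n`,
`α` of degree at most `g` and height at most `B`, are Hodge generic. The functions `v_l x`, `v_l > 0`, are starshaped on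
`(0, ∞)`, of exponent `σ` if `v` has exponent of convergence at most `σ`; the functions `x ^ (v_l)`, `v_l ≥ 1`, are starshaped
on `(1, ∞)`, of exponent `0` if the sums of `exp (-t v_l)` converge for `t > 0`; and the iterates of a map `h` with `h(x) > x`
for `x > x₀` and `h(x) / x` nondecreasing are starshaped on `(x₀, ∞)`, of exponent `0`. -/
theorem result :
    (∀ m : ℕ, 2 ≤ m → ∀ β : Fin m → ℚ, (∀ j, 0 < β j ∧ β j < 1) → ∀ g B : ℕ, ∃ c : ℝ, 0 < c ∧
      ∀ (C : Matrix (Fin (2 * m)) (Fin (2 * m)) ℂ) (A : Matrix (Fin (2 * m)) (Fin (2 * m)) ℚ), RationalStructure C A →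
      ∀ (f : ℕ → ℝ → ℝ) (x₀ σ η θ : ℝ), Starshaped x₀ f → 0 ≤ σ → ExpLe x₀ f σ → 0 ≤ η → θ < 1 →
      ∃ E : Set ℝ, dimH E ≤ ENNReal.ofReal ((1 - c + η + σ) / (1 - θ)) ∧
        ∀ x : ℝ, x₀ < x → x ∉ E → ∀ c' : ℝ, ∃ l₀ : ℕ, ∀ l : ℕ, l₀ ≤ l → ∀ n : ℕ, 1 ≤ n →
          |(n : ℝ) - f l x| ≤ c' * (f l x) ^ θ → GoodFibres β C A g B η n) ∧
    (∀ (v : ℕ → ℝ) (σ : ℝ), (∀ l, 0 < v l) → (∀ t : ℝ, σ < t → Summable (fun l : ℕ => (v l) ^ (-t))) →
      Starshaped 0 (fun l x => v l * x) ∧ ExpLe 0 (fun l x => v l * x) σ) ∧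
    (∀ v : ℕ → ℝ, (∀ l, 1 ≤ v l) → (∀ t : ℝ, 0 < t → Summable fun l : ℕ => Real.exp (-(t * v l))) →
      Starshaped 1 (fun l x => x ^ (v l)) ∧ ExpLe 1 (fun l x => x ^ (v l)) 0) ∧
    (∀ (x₀ : ℝ) (g : ℝ → ℝ), 0 ≤ x₀ → (∀ x y : ℝ, x₀ < x → x ≤ y → g x / x ≤ g y / y) → (∀ x : ℝ, x₀ < x → x < g x) →
      Starshaped x₀ (fun l x => g^[l] x) ∧ ExpLe x₀ (fun l x => g^[l] x) 0) := by
  refine ⟨fun m hm β hβ g B => ?_, Pool.Agent.R482.ST.ex_mul, Pool.Agent.R482.ST.ex_pow, Pool.Agent.R482.ST.ex_orbit⟩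
  obtain ⟨c, hc, hc1, H⟩ := Pool.Agent.J6H45.WF.H.sparse_H hm β hβ g B
  refine ⟨c, hc, fun C A hCA f x₀ σ η θ hf hσ hv hη hθ => ?_⟩
  obtain ⟨K, hK⟩ := H η hη
  exact Pool.Agent.J6H45.WF.star (by linarith) (hK C A hCA) hf hσ hv hθ

end Pool.Agent.Results.MP_eeb1a4_ag.StarshapedFibres
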